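import Pool.Agent.Lib.MP_4e7250_co.Final
import Pool.Agent.Lib.MP_4e7250_co.Perron
import Pool.Agent.Lib.MP_4e7250_co.Basic
import Pool.Agent.Lib.MP_4e7250_co.Zrem
import Pool.Agent.Lib.MP_4e7250_co.Hel
import Pool.Agent.Lib.MP_4e7250_co.Trem
import Pool.Agent.Lib.MP_4e7250_co.Jen
import Pool.Agent.Lib.MP_4e7250_co.Cnt
import Pool.Agent.Lib.MP_4e7250_co.Low
import Pool.Agent.Lib.MP_4e7250_co.Upg
import Pool.Agent.Lib.MP_4e7250_co.Star
import Pool.Agent.Lib.MP_4e7250_co.Forest
import Pool.Agent.Lib.MP_4e7250_co.Mass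
import Pool.Agent.Lib.MP_4e7250_co.Hub
import Pool.Agent.Lib.MP_4e7250_co.Gain
import Pool.Agent.Lib.MP_4e7250_co.Lam
import Pool.Agent.Lib.MP_4e7250_co.Path
import Pool.Agent.Lib.MP_4e7250_co.Walk

set_option autoImplicit false

/-! Trees with many leaves: there are more endomorphisms of a tree than homomorphisms from the
path with the same number of vertices. -/

namespace Pool.Agent.Results.MP_4e7250_co.ManyLeaves

open Pool.Agent.Lib.MP_4e7250_co

/-- The number of leaves: the vertices with exactly one neighbour. -/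
noncomputable def leaves {V : Type} (T : SimpleGraph V) : ℕ := {v : V | ∃! u, T.Adj v u}.ncard

lemma leaves_eq {V : Type} [Fintype V] (T : SimpleGraph V) : leaves T = (lv T).card := by
  classical
  rw [leaves, ← Set.ncard_coe_finset]
  congr 1
  ext v
  simp only [Set.mem_setOf_eq, lv, Finset.coe_filter, Finset.mem_univ, true_and, IsLeaf]
  constructor
  · rintro ⟨u, hu, huu⟩
    exact ⟨u, fun x => ⟨fun hx => huu x hx, fun hx => hx ▸ hu⟩⟩
  · rintro ⟨p, hp⟩
    exact ⟨p, (hp p).mpr rfl, fun y hy => (hp y).mp hy⟩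

lemma const_le : (2600 / (1 / 2000000000) ^ 2 + 15600 / (1 / 1000000) ^ 5 : ℝ) ≤
    Real.exp 79 := by
  have h1 : (2.7182818283 : ℝ) ^ 79 ≤ Real.exp 79 := by
    have h2 : Real.exp 79 = Real.exp 1 ^ 79 := by
      rw [← Real.exp_nat_mul]
      norm_num
    rw [h2]
    exact pow_le_pow_left₀ (by norm_num) Real.exp_one_gt_d9.le 79
  exact le_trans (by norm_num) h1

/-- If the tree `T` has `n` vertices and `ℓ ≥ 5` leaves then
`hom(P_n, T) * exp(√ℓ / (2 * 10 ^ 9) - 79) ≤ hom(T, T)`. -/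
theorem result (V : Type) [Fintype V] (T : SimpleGraph V) (hT : T.IsTree) (hl : 5 ≤ leaves T) :
    (Nat.card (SimpleGraph.pathGraph (Fintype.card V) →g T) : ℝ) *
        Real.exp (√(leaves T) / (2 * 10 ^ 9) - 79) ≤ Nat.card (T →g T) := by
  have hJ := thJen thZrem thTrem
  have hH := thHel thBasic
  have h := thFinalX thPerron thBasic (thLow thBasic thZrem thTrem hJ)
    (thUpg thBasic thZrem thTrem hJ)
    (thStar thBasic) (thMass thBasic hH thForest) (thHub thBasic) (thGain thBasic hH)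
    (thLam thBasic thCnt) (thWalk thPath thCnt) V T hT (by rwa [← leaves_eq])
  rw [← leaves_eq] at h
  have h2 := h.trans (mul_le_mul_of_nonneg_right const_le (Nat.cast_nonneg _))
  rw [show √(leaves T : ℝ) / (2 * 10 ^ 9) - 79 = 1 / 2000000000 * √(leaves T : ℝ) - 79 by ring,
    Real.exp_sub, ← mul_div_assoc, div_le_iff₀ (Real.exp_pos _)]
  linarith

end Pool.Agent.Results.MP_4e7250_co.ManyLeaves
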