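import Pool.Agent.Lib.MP_4e7250_co.SP.Fin_24
import Pool.Agent.Lib.MP_4e7250_co.SP.SA_24
import Pool.Agent.Lib.MP_4e7250_co.SP.CO_24
import Pool.Agent.Lib.MP_4e7250_co.SP.M_24
import Pool.Agent.Lib.MP_4e7250_co.SP.HP_90
import Pool.Agent.Lib.MP_4e7250_co.SP.XI_90
import Pool.Agent.Lib.MP_4e7250_co.SP.VV_90
import Pool.Agent.Lib.MP_4e7250_co.SP.ID_88
import Pool.Agent.Lib.MP_4e7250_co.SP.TS_88
import Pool.Agent.Lib.MP_4e7250_co.SP.KR_39
import Pool.Agent.Lib.MP_4e7250_co.SP.PS_39
import Pool.Agent.Lib.MP_4e7250_co.SP.GG_39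
import Pool.Agent.Lib.MP_4e7250_co.SP.KC_36
import Pool.Agent.Lib.MP_4e7250_co.SP.KV_36
import Pool.Agent.Lib.MP_4e7250_co.SP.BB_39
import Pool.Agent.Lib.MP_4e7250_co.SP.GP_39
import Pool.Agent.Lib.MP_4e7250_co.SP.BN_98
import Pool.Agent.Lib.MP_4e7250_co.SP.BF_19
import Pool.Agent.Lib.MP_4e7250_co.SP.YY_52
import Pool.Agent.Lib.MP_4e7250_co.SP.P2_24
import Pool.Agent.Lib.MP_4e7250_co.SP.ChB24

set_option autoImplicit false

/-! Trees with at most one vertex of degree at least three: at least as many endomorphisms as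
homomorphisms from the path with the same number of vertices. -/

namespace Pool.Agent.Results.MP_4e7250_co.OneBranchVertex

open SP24

/-- Spiders: any number of legs of any lengths. -/
theorem spiders (ι : Type) [Fintype ι] (len : ι → ℕ) (hlen : ∀ P, 1 ≤ len P) :
    Nat.card (SimpleGraph.pathGraph (Fintype.card (Vert len)) →g spider len) ≤
      Nat.card (spider len →g spider len) := by
  classical
  rw [card_vert24]
  exact spidersB24 hp hs sa kn pf co_fam (ps kn (kr kn co_fam) pa) me m2 m1 id24 mu24 (xi24 mu24)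
    (gg me m1) (vv id24 mu24) (p2 kn kc kv bb bn bf) gp yy hlen

/-- Every finite tree with at most one vertex with at least three neighbours. -/
theorem result : ∀ (V : Type) [Fintype V] (T : SimpleGraph V), T.IsTree →
    (∀ u v : V, 3 ≤ {x | T.Adj u x}.ncard → 3 ≤ {x | T.Adj v x}.ncard → u = v) →
    Nat.card (SimpleGraph.pathGraph (Fintype.card V) →g T) ≤ Nat.card (T →g T) := by
  intro V _ T hT hb
  obtain ⟨m, len, hlen, ⟨e⟩⟩ := ts V T hT hb
  have h := spiders (Fin m) len hlen
  have hcardV : Fintype.card (Vert len) = Fintype.card V := Fintype.card_congr e.toEquiv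
  rw [hcardV] at h
  rw [card_hom24 _ e, hom_card24 _ e, card_hom24 _ e] at h
  exact h

end Pool.Agent.Results.MP_4e7250_co.OneBranchVertex
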